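import Pool.Agent.W5h83.NF.Main

/-!
# It is consistent that `𝔰𝔰_c < 𝔡`

* There are a set `Ω` of cardinality `ℵ₁` and a preordered set of conditions (a finite support
  iteration of length `ω₁` of bounded localization forcing, over many Cohen reals), which satisfies
  the countable chain condition, every condition of which forces the sentence `Ψ`: there is a
  family of slaloms of width `n`, indexed by `Ω`, such that every function bounded by `bB` is
  captured by one of them, but no family of functions from `ω` to `ω` indexed by `Ω` is dominating.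
* The sentence `Ψ` implies that `𝔰𝔰_c ≤ |Ω| < 𝔡`.

Therefore `𝔰𝔰_c < 𝔡` is consistent.

A sentence of the forcing language is the set of the conditions which force it; `fnot`, `fand`,
`fall` are the usual clauses of the definition of forcing and `fimp`, `fex` are defined from them
classically. The sentence `PsiHolds P Ω` is the translation of the proposition `PsiFor Ω` into the
forcing language. `ssc` is `𝔰𝔰_c` and `dNum` is the dominating number.
-/

set_option autoImplicit false

namespace Pool.Agent.Results.MP_70b496_lc.SubseriesLtDom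

open Cardinal Pool.Agent.W5h83.SS

theorem result :
    -- the sentence `Ψ` can be forced
    (∃ (Ω P : Type) (_ : Preorder P), #Ω = ℵ₁ ∧ Nonempty P ∧
      (∀ A : Set P, (∀ p ∈ A, ∀ q ∈ A, p ≠ q → ¬ ∃ r, r ≤ p ∧ r ≤ q) → A.Countable) ∧
      ∀ p : P, p ∈ PsiHolds P Ω) ∧
    -- the sentence `Ψ` implies `𝔰𝔰_c < 𝔡`
    (∀ Ω : Type, PsiFor Ω → Pool.Agent.V11242.SS.ssc ≤ #Ω ∧ #Ω < dNum) :=
  ⟨Pool.Agent.W5h83.NF.exists_forcing bB, fun _ h => ⟨ssc_le h.1, lt_dNum h.2⟩⟩

end Pool.Agent.Results.MP_70b496_lc.SubseriesLtDom
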